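import Pool.Agent.Q177.PL.Main

/-!
Perfect images of paralindelöf spaces are paralindelöf.

Idea: a locally countable family in a paralindelöf space has a locally countable open expansion (by
stars with respect to a locally countable open refinement). Let `𝒱` be a locally countable open
refinement, in `X`, of the inverse image of an open cover of `Y`. The sets `f '' V` are locally
countable in `Y`, as the fibres are compact; the sets `f ⁻¹' (f '' V)` have a locally countable open
expansion `O V` in `X`, and the open sets `Y \ f '' (X \ O V) ⊇ f '' V` are locally countable.
-/

open Set Topology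
open Pool.Agent.Q177.PL

set_option autoImplicit false

namespace Pool.Agent.Results.MP_6bd103_gt.PerfectImages

universe u v

/-- (1) Q1: the image of a paralindelöf space under a perfect mapping (continuous, surjective,
closed, with compact fibres) is paralindelöf; no separation axiom is needed.
(2) The image under a closed mapping is paralindelöf if all fibres are Lindelöf, or if the domain
is `T₁` and all fibres have Lindelöf boundaries. -/
theorem result :
    (∀ (X : Type u) (Y : Type v) [TopologicalSpace X] [TopologicalSpace Y] (f : X → Y),
      Continuous f → Function.Surjective f → IsClosedMap f → (∀ y, IsCompact (f ⁻¹' {y})) →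
      Paralindelof X → Paralindelof Y) ∧
    ∀ (X : Type u) (Y : Type v) [TopologicalSpace X] [TopologicalSpace Y] (f : X → Y),
      Continuous f → Function.Surjective f → IsClosedMap f →
      ((∀ y, IsLindelof (f ⁻¹' {y})) ∨ T1Space X ∧ ∀ y, IsLindelof (frontier (f ⁻¹' {y}))) →
      Paralindelof X → Paralindelof Y := by
  refine ⟨fun X Y _ _ f hf hs hc hk hX =>
    lindelof_fibres hf hs hc (fun y => (hk y).isLindelof) hX, ?_⟩
  rintro X Y _ _ f hf hs hc (h | ⟨h1, h⟩) hX
  · exact lindelof_fibres hf hs hc h hX
  · exact lindelof_boundaries hf hs hc h hX

end Pool.Agent.Results.MP_6bd103_gt.PerfectImages
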